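import Pool.Agent.Helper94.BR.Geo
import Pool.Agent.Helper86.LG.Mk
import Pool.Agent.Helper63.RP4.A08

/-!
# Project DV (MP_973bc8_pr): lattice domains around polyominoes

For a polyomino `P` with connected complement and small `τ` there are simply connected even lattice domains
between the neighbourhoods of radius `τ` and `2 τ` of `P`.
-/

open Set Metric RP4 Filter Topology
open GF (Pl)

namespace DV

/-- `t` has distance at most `ρ` from the interval number `s` of the grid -/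
def JN (k : ℕ) (ρ : ℝ) (s : ℤ) (t : ℝ) : Prop := gx k s - ρ ≤ t ∧ t ≤ gx k (s + 1) + ρ

lemma gx_mono {k : ℕ} {i j : ℤ} (h : i ≤ j) : gx k i ≤ gx k j := by
  unfold gx
  have h1 : (i : ℝ) ≤ j := by exact_mod_cast h
  have : (0 : ℝ) < 2 ^ k := by positivity
  gcongr

private lemma L2_fst {k : ℕ} {s : ℤ × ℤ} {q : Pl} (h : q ∈ cel k s) :
    gx k s.1 ≤ q.1 ∧ q.1 ≤ gx k (s.1 + 1) ∧ gx k s.2 ≤ q.2 ∧ q.2 ≤ gx k (s.2 + 1) := by
  unfold cel at h
  rw [mem_prod, mem_Icc, mem_Icc] at h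
  exact ⟨h.1.1, h.1.2, h.2.1, h.2.2⟩

private lemma L2_clamp {k : ℕ} {ρ : ℝ} {s : ℤ} {t : ℝ} (hρ : 0 ≤ ρ) (h : JN k ρ s t) :
    ∃ y, gx k s ≤ y ∧ y ≤ gx k (s + 1) ∧ |t - y| ≤ ρ := by
  have h0 := gx_lt_succ k s
  obtain ⟨h1, h2⟩ := h
  rcases le_total t (gx k s) with h3 | h3
  · exact ⟨gx k s, le_rfl, h0.le, by rw [abs_le]; constructor <;> linarith⟩
  · rcases le_total t (gx k (s + 1)) with h4 | h4
    · exact ⟨t, h3, h4, by rw [sub_self, abs_zero]; exact hρ⟩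
    · exact ⟨gx k (s + 1), h0.le, le_rfl, by rw [abs_le]; constructor <;> linarith⟩

lemma mem_cth {k : ℕ} {S : Finset (ℤ × ℤ)} {ρ : ℝ} (hρ : 0 ≤ ρ) {q : Pl} :
    q ∈ cthickening ρ (pol k S) ↔ ∃ s ∈ S, JN k ρ s.1 q.1 ∧ JN k ρ s.2 q.2 := by
  constructor
  · intro h
    rw [(pol_compact k S).cthickening_eq_biUnion_closedBall hρ, mem_iUnion₂] at h
    obtain ⟨y, hy, hqy⟩ := h
    unfold pol at hy
    rw [mem_iUnion₂] at hy
    obtain ⟨s, hs, hys⟩ := hy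
    obtain ⟨h1, h2, h3, h4⟩ := L2_fst hys
    rw [mem_closedBall, Prod.dist_eq, max_le_iff, Real.dist_eq, Real.dist_eq, abs_le, abs_le] at hqy
    refine ⟨s, hs, ⟨?_, ?_⟩, ?_, ?_⟩ <;> linarith [hqy.1.1, hqy.1.2, hqy.2.1, hqy.2.2]
  · rintro ⟨s, hs, h1, h2⟩
    obtain ⟨y, hy1, hy2, hy3⟩ := L2_clamp hρ h1
    obtain ⟨z, hz1, hz2, hz3⟩ := L2_clamp hρ h2
    refine mem_cthickening_of_dist_le q (y, z) ρ _ (cel_subset_pol hs ⟨⟨hy1, hy2⟩, hz1, hz2⟩) ?_
    rw [Prod.dist_eq, max_le_iff, Real.dist_eq, Real.dist_eq]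
    exact ⟨hy3, hz3⟩

/-- moving towards the middle of an interval of the grid does not approach the other intervals -/
private lemma JN_move {k : ℕ} {ρ δ : ℝ} {i a x c s : ℤ} (hδ : 0 < δ) (hρ0 : 0 ≤ ρ)
    (hρ : ρ + δ < 1 / 2 ^ k / 2) (hx : gx k i ≤ δ * x) (hx' : δ * x ≤ gx k (i + 1))
    (hc : δ * c ≤ gx k i + 1 / 2 ^ k / 2) (hc' : gx k i + 1 / 2 ^ k / 2 < δ * (c + 1))
    (ha : (x ≤ a ∧ a ≤ c) ∨ (c ≤ a ∧ a ≤ x)) (h : JN k ρ s (δ * a)) : JN k ρ s (δ * x) := by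
  have hm := gx_succ_sub k i
  have mul : ∀ u v : ℤ, u ≤ v → δ * u ≤ δ * v := fun u v huv =>
    mul_le_mul_of_nonneg_left (by exact_mod_cast huv) hδ.le
  obtain ⟨h1, h2⟩ := h
  have e : δ * ((c : ℝ) + 1) = δ * c + δ := by ring
  rw [e] at hc'
  rcases lt_trichotomy s i with hs | hs | hs
  · have g1 : gx k (s + 1) ≤ gx k i := gx_mono (by omega)
    have g2 : gx k s ≤ gx k i := gx_mono (by omega)
    rcases ha with ⟨ha, ha'⟩ | ⟨ha, ha'⟩
    · have := mul x a ha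
      constructor <;> linarith
    · have := mul c a ha
      linarith
  · subst hs
    constructor <;> linarith
  · have g1 : gx k (i + 1) ≤ gx k s := gx_mono (by omega)
    have g2 : gx k s ≤ gx k (s + 1) := gx_mono (by omega)
    rcases ha with ⟨ha, ha'⟩ | ⟨ha, ha'⟩
    · have := mul a c ha'
      linarith
    · have := mul a x ha'
      constructor <;> linarith

/-- between two middles -/
private lemma JN_core {k : ℕ} {ρ δ : ℝ} {i i' a c c' s : ℤ} (hδ : 0 < δ)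
    (hρ : ρ + δ < 1 / 2 ^ k / 2) (hc : gx k i + 1 / 2 ^ k / 2 < δ * (c + 1))
    (hc' : δ * c' ≤ gx k i' + 1 / 2 ^ k / 2) (ha : c ≤ a) (ha' : a ≤ c') (h : JN k ρ s (δ * a)) :
    i ≤ s ∧ s ≤ i' := by
  have hm := gx_succ_sub k i'
  have mul : ∀ u v : ℤ, u ≤ v → δ * u ≤ δ * v := fun u v huv =>
    mul_le_mul_of_nonneg_left (by exact_mod_cast huv) hδ.le
  obtain ⟨h1, h2⟩ := h
  have e : δ * ((c : ℝ) + 1) = δ * c + δ := by ring
  rw [e] at hc
  have m1 := mul c a ha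
  have m2 := mul a c' ha'
  constructor
  · by_contra hs
    have g1 : gx k (s + 1) ≤ gx k i := gx_mono (by omega)
    linarith
  · by_contra hs
    have g1 : gx k (i' + 1) ≤ gx k s := gx_mono (by omega)
    linarith

private lemma L2_hor' {Q : Set V} {b a : ℤ} : ∀ a' : ℤ, a ≤ a' → (∀ c, a ≤ c → c ≤ a' → (c, b) ∈ Q) →
    Con Q (a, b) (a', b) := by
  intro a' haa
  induction a', haa using Int.leInduction with
  | base => intro h; exact Jn.refl (h a le_rfl le_rfl)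
  | succ m hm ih =>
    intro h
    refine Jn.step (ih fun c h1 h2 => h c h1 (by omega)) ?_ (h _ (by omega) le_rfl)
    unfold Adj
    simp

lemma con_hor {Q : Set V} {b a a' : ℤ} (h : ∀ c, (a ≤ c ∧ c ≤ a') ∨ (a' ≤ c ∧ c ≤ a) → (c, b) ∈ Q) :
    Con Q (a, b) (a', b) := by
  rcases le_total a a' with h1 | h1
  · exact L2_hor' _ h1 fun c h2 h3 => h c (Or.inl ⟨h2, h3⟩)
  · exact (L2_hor' _ h1 fun c h2 h3 => h c (Or.inr ⟨h2, h3⟩)).symm'

private lemma L2_ver' {Q : Set V} {b a : ℤ} : ∀ a' : ℤ, a ≤ a' → (∀ c, a ≤ c → c ≤ a' → (b, c) ∈ Q) →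
    Con Q (b, a) (b, a') := by
  intro a' haa
  induction a', haa using Int.leInduction with
  | base => intro h; exact Jn.refl (h a le_rfl le_rfl)
  | succ m hm ih =>
    intro h
    refine Jn.step (ih fun c h1 h2 => h c h1 (by omega)) ?_ (h _ (by omega) le_rfl)
    unfold Adj
    simp

lemma con_ver {Q : Set V} {b a a' : ℤ} (h : ∀ c, (a ≤ c ∧ c ≤ a') ∨ (a' ≤ c ∧ c ≤ a) → (b, c) ∈ Q) :
    Con Q (b, a) (b, a') := by
  rcases le_total a a' with h1 | h1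
  · exact L2_ver' _ h1 fun c h2 h3 => h c (Or.inl ⟨h2, h3⟩)
  · exact (L2_ver' _ h1 fun c h2 h3 => h c (Or.inr ⟨h2, h3⟩)).symm'

lemma cel_locallyFinite (k : ℕ) : LocallyFinite (cel k) :=
  fun x => ⟨ball x 1, ball_mem_nhds x one_pos, cel_finite k isBounded_ball⟩

lemma cells_closed (k : ℕ) (A : Set (ℤ × ℤ)) : IsClosed (⋃ i : A, cel k i) :=
  ((cel_locallyFinite k).comp_injective Subtype.val_injective).isClosed_iUnion
    fun i => (cel_compact k i).isClosed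

/-- the middle of a square lies in no other square -/
lemma mid_cel {k : ℕ} {i s : ℤ × ℤ}
    (h : ((gx k i.1 + 1 / 2 ^ k / 2, gx k i.2 + 1 / 2 ^ k / 2) : Pl) ∈ cel k s) : s = i := by
  obtain ⟨h1, h2, h3, h4⟩ := L2_fst h
  have hk : (0 : ℝ) < 1 / 2 ^ k := by positivity
  have key : ∀ a b : ℤ, gx k a ≤ gx k b + 1 / 2 ^ k / 2 → gx k b + 1 / 2 ^ k / 2 ≤ gx k (a + 1) → a = b := by
    intro a b h5 h6
    have h7 := gx_succ_sub k b
    by_contra hne
    rcases lt_or_gt_of_ne hne with h8 | h8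
    · have := gx_mono (k := k) (show a + 1 ≤ b by omega)
      linarith
    · have := gx_mono (k := k) (show b + 1 ≤ a by omega)
      linarith
  exact Prod.ext (key _ _ h1 h2) (key _ _ h3 h4)

/-- the squares of the complement of a polyomino with connected complement are connected -/
theorem cells_cnn {k : ℕ} {S : Finset (ℤ × ℤ)} (h : IsPreconnected (pol k S)ᶜ) :
    Cnn ((S : Set V)ᶜ) := by
  intro u hu v hv
  by_contra huv
  have hA := cells_closed k (comp ((S : Set V)ᶜ) u)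
  have hB := cells_closed k ((S : Set V)ᶜ \ comp ((S : Set V)ᶜ) u)
  have mid : ∀ w : ℤ × ℤ, w ∈ (S : Set V)ᶜ →
      ((gx k w.1 + 1 / 2 ^ k / 2, gx k w.2 + 1 / 2 ^ k / 2) : Pl) ∈ (pol k S)ᶜ ∧
      ((gx k w.1 + 1 / 2 ^ k / 2, gx k w.2 + 1 / 2 ^ k / 2) : Pl) ∈ cel k w := by
    intro w hw
    constructor
    · intro hp
      unfold pol at hp
      rw [mem_iUnion₂] at hp
      obtain ⟨s, hs, hps⟩ := hp
      rw [mid_cel hps] at hs
      exact hw hs
    · have hk : (0 : ℝ) < 1 / 2 ^ k := by positivity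
      have h1 := gx_succ_sub k w.1
      have h2 := gx_succ_sub k w.2
      refine ⟨⟨?_, ?_⟩, ?_, ?_⟩ <;> linarith
  have hcov : (pol k S)ᶜ ⊆ (⋃ i : ↥(comp ((S : Set V)ᶜ) u), cel k i) ∪
      ⋃ i : ↥((S : Set V)ᶜ \ comp ((S : Set V)ᶜ) u), cel k i := by
    intro p hp
    obtain ⟨i, hi⟩ := exists_cel k p
    have hiS : i ∈ (S : Set V)ᶜ := fun h => hp (cel_subset_pol h hi)
    by_cases hiA : i ∈ comp ((S : Set V)ᶜ) u
    · exact Or.inl (mem_iUnion.2 ⟨⟨i, hiA⟩, hi⟩)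
    · exact Or.inr (mem_iUnion.2 ⟨⟨i, hiS, hiA⟩, hi⟩)
  obtain ⟨p, hp, hpA, hpB⟩ := isPreconnected_closed_iff.1 h _ _ hA hB hcov
    ⟨_, (mid u hu).1, mem_iUnion.2 ⟨⟨u, mem_comp_self hu⟩, (mid u hu).2⟩⟩
    ⟨_, (mid v hv).1, mem_iUnion.2 ⟨⟨v, hv, huv⟩, (mid v hv).2⟩⟩
  · rw [mem_iUnion] at hpA hpB
    obtain ⟨⟨i, hi⟩, hpi⟩ := hpA
    obtain ⟨⟨j, hj, hj'⟩, hpj⟩ := hpB
    obtain ⟨a1, a2, a3, a4⟩ := L2_fst hpi
    obtain ⟨b1, b2, b3, b4⟩ := L2_fst hpj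
    have hw : ((i.1, j.2) : V) ∈ (S : Set V)ᶜ := fun hw =>
      hp (cel_subset_pol hw ⟨⟨a1, a2⟩, b3, b4⟩)
    have key : ∀ (x y : ℤ) (t : ℝ), gx k x ≤ t → t ≤ gx k (x + 1) → gx k y ≤ t → t ≤ gx k (y + 1) →
        |x - y| ≤ 1 := by
      have lt : ∀ a b : ℤ, gx k a ≤ gx k b → a ≤ b := by
        intro a b hab
        by_contra hlt
        have h5 := gx_lt_succ k b
        have h6 := gx_mono (k := k) (show b + 1 ≤ a by omega)
        linarith
      intro x y t h1 h2 h3 h4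
      have h5 := lt x (y + 1) (h1.trans h4)
      have h6 := lt y (x + 1) (h3.trans h2)
      rw [abs_le]
      constructor <;> omega
    have step : ∀ a b : V, a ∈ comp ((S : Set V)ᶜ) u → b ∈ (S : Set V)ᶜ → (a = b ∨ Adj a b) →
        b ∈ comp ((S : Set V)ᶜ) u := by
      rintro a b ha hb (rfl | hab)
      · exact ha
      · exact comp_step ha hab hb
    have c1 := key i.1 j.1 p.1 a1 a2 b1 b2
    have c2 := key i.2 j.2 p.2 a3 a4 b3 b4
    have d1 : ((i.1, j.2) : V) ∈ comp ((S : Set V)ᶜ) u := by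
      refine step i _ hi hw ?_
      by_cases e : i.2 = j.2
      · exact Or.inl (Prod.ext rfl e)
      · right
        unfold Adj
        simp only [sub_self, abs_zero, zero_add]
        have : 0 < |i.2 - j.2| := abs_pos.2 (sub_ne_zero.2 e)
        omega
    refine hj' (step _ j d1 hj ?_)
    by_cases e : i.1 = j.1
    · exact Or.inl (Prod.ext e rfl)
    · right
      unfold Adj
      simp only [sub_self, abs_zero, add_zero]
      have : 0 < |i.1 - j.1| := abs_pos.2 (sub_ne_zero.2 e)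
      omega

/-! ### the lattice -/

/-- the sites outside of the `ρ`-neighbourhood -/
def offN (k : ℕ) (S : Finset (ℤ × ℤ)) (ρ δ : ℝ) : Set V := {x | pt δ x ∉ cthickening ρ (pol k S)}

lemma mem_offN {k : ℕ} {S : Finset (ℤ × ℤ)} {ρ δ : ℝ} (hρ : 0 ≤ ρ) {x : V} :
    x ∈ offN k S ρ δ ↔ ∀ s ∈ S, ¬ (JN k ρ s.1 (δ * x.1) ∧ JN k ρ s.2 (δ * x.2)) := by
  unfold offN
  rw [Set.mem_ofPred_eq, mem_cth hρ]
  push Not
  rfl

/-- a site near the middle of the interval -/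
noncomputable def cstN (k : ℕ) (δ : ℝ) (i : ℤ) : ℤ := ⌊(gx k i + 1 / 2 ^ k / 2) / δ⌋

lemma cstN_le {k : ℕ} {δ : ℝ} (hδ : 0 < δ) (i : ℤ) : δ * cstN k δ i ≤ gx k i + 1 / 2 ^ k / 2 := by
  have h := Int.floor_le ((gx k i + 1 / 2 ^ k / 2) / δ)
  rw [le_div_iff₀ hδ, mul_comm] at h
  exact h

lemma cstN_lt {k : ℕ} {δ : ℝ} (hδ : 0 < δ) (i : ℤ) : gx k i + 1 / 2 ^ k / 2 < δ * (cstN k δ i + 1) := by
  have h := Int.lt_floor_add_one ((gx k i + 1 / 2 ^ k / 2) / δ)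
  rw [div_lt_iff₀ hδ, mul_comm] at h
  exact h

/-- the lattice complement of the neighbourhood is connected -/
theorem offN_cnn {k : ℕ} {S : Finset (ℤ × ℤ)} {ρ δ : ℝ} (hδ : 0 < δ) (hρ0 : 0 ≤ ρ)
    (hρ : ρ + δ < 1 / 2 ^ k / 2) (hS : Cnn ((S : Set V)ᶜ)) : Cnn (offN k S ρ δ) := by
  -- every site is joined to the middle of its square
  have hA : ∀ x ∈ offN k S ρ δ, ∀ i : ℤ × ℤ, pt δ x ∈ cel k i →
      Con (offN k S ρ δ) x (cstN k δ i.1, cstN k δ i.2) := by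
    intro x hx i hi
    obtain ⟨h1, h2, h3, h4⟩ := L2_fst hi
    have hx' := (mem_offN hρ0).1 hx
    have c1 : ∀ a, (x.1 ≤ a ∧ a ≤ cstN k δ i.1) ∨ (cstN k δ i.1 ≤ a ∧ a ≤ x.1) →
        ((a, x.2) : V) ∈ offN k S ρ δ := by
      intro a ha
      rw [mem_offN hρ0]
      rintro s hs ⟨h5, h6⟩
      exact hx' s hs ⟨JN_move hδ hρ0 hρ h1 h2 (cstN_le hδ _) (cstN_lt hδ _) ha h5, h6⟩
    have c2 := (mem_offN hρ0).1 (c1 (cstN k δ i.1) (by omega))
    have c3 : ∀ b, (x.2 ≤ b ∧ b ≤ cstN k δ i.2) ∨ (cstN k δ i.2 ≤ b ∧ b ≤ x.2) →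
        ((cstN k δ i.1, b) : V) ∈ offN k S ρ δ := by
      intro b hb
      rw [mem_offN hρ0]
      rintro s hs ⟨h5, h6⟩
      exact c2 s hs ⟨h5, JN_move hδ hρ0 hρ h3 h4 (cstN_le hδ _) (cstN_lt hδ _) hb h6⟩
    exact (con_hor c1).trans (con_ver c3)
  -- the middles of neighbouring squares are joined
  have hB1 : ∀ i j : ℤ × ℤ, i ∉ S → j ∉ S → i.2 = j.2 → j.1 = i.1 + 1 →
      Con (offN k S ρ δ) (cstN k δ i.1, cstN k δ i.2) (cstN k δ j.1, cstN k δ j.2) := by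
    intro i j hi hj h2 h1
    rw [← h2]
    refine con_hor fun a ha => ?_
    rw [mem_offN hρ0]
    rintro s hs ⟨h5, h6⟩
    obtain ⟨g1, g2⟩ := JN_core hδ hρ (cstN_lt hδ i.2) (cstN_le hδ i.2) le_rfl le_rfl h6
    have hle : cstN k δ i.1 ≤ cstN k δ j.1 := by
      unfold cstN
      apply Int.floor_le_floor
      have := gx_mono (k := k) (show i.1 ≤ j.1 by omega)
      gcongr
    obtain ⟨g3, g4⟩ := JN_core hδ hρ (cstN_lt hδ i.1) (cstN_le hδ j.1) (a := a) (by omega) (by omega) h5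
    have g5 : s = i ∨ s = j := by
      rcases (show s.1 = i.1 ∨ s.1 = j.1 by omega) with e | e
      · exact Or.inl (Prod.ext e (by omega))
      · exact Or.inr (Prod.ext e (by omega))
    rcases g5 with rfl | rfl
    · exact hi hs
    · exact hj hs
  have hB2 : ∀ i j : ℤ × ℤ, i ∉ S → j ∉ S → i.1 = j.1 → j.2 = i.2 + 1 →
      Con (offN k S ρ δ) (cstN k δ i.1, cstN k δ i.2) (cstN k δ j.1, cstN k δ j.2) := by
    intro i j hi hj h2 h1
    rw [← h2]
    refine con_ver fun a ha => ?_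
    rw [mem_offN hρ0]
    rintro s hs ⟨h5, h6⟩
    obtain ⟨g1, g2⟩ := JN_core hδ hρ (cstN_lt hδ i.1) (cstN_le hδ i.1) le_rfl le_rfl h5
    have hle : cstN k δ i.2 ≤ cstN k δ j.2 := by
      unfold cstN
      apply Int.floor_le_floor
      have := gx_mono (k := k) (show i.2 ≤ j.2 by omega)
      gcongr
    obtain ⟨g3, g4⟩ := JN_core hδ hρ (cstN_lt hδ i.2) (cstN_le hδ j.2) (a := a) (by omega) (by omega) h6
    have g5 : s = i ∨ s = j := by
      rcases (show s.2 = i.2 ∨ s.2 = j.2 by omega) with e | e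
      · exact Or.inl (Prod.ext (by omega) e)
      · exact Or.inr (Prod.ext (by omega) e)
    rcases g5 with rfl | rfl
    · exact hi hs
    · exact hj hs
  have hB : ∀ i j : ℤ × ℤ, i ∉ S → j ∉ S → Adj i j →
      Con (offN k S ρ δ) (cstN k δ i.1, cstN k δ i.2) (cstN k δ j.1, cstN k δ j.2) := by
    intro i j hi hj hij
    rcases adj_cases' hij with ⟨h1, h2⟩ | ⟨h1, h2⟩ | ⟨h1, h2⟩ | ⟨h1, h2⟩
    · exact hB1 i j hi hj h2.symm h1
    · exact (hB1 j i hj hi h2 (by omega)).symm'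
    · exact hB2 i j hi hj h1.symm h2
    · exact (hB2 j i hj hi h1 (by omega)).symm'
  have hC : ∀ i j : V, Con ((S : Set V)ᶜ) i j →
      Con (offN k S ρ δ) (cstN k δ i.1, cstN k δ i.2) (cstN k δ j.1, cstN k δ j.2) := by
    intro i j hij
    refine Jn.prop (P := fun w => Con (offN k S ρ δ) (cstN k δ i.1, cstN k δ i.2)
      (cstN k δ w.1, cstN k δ w.2)) hij (Jn.refl ?_) ?_
    · have hi : i ∈ (S : Set V)ᶜ := hij.left
      rw [mem_offN hρ0]
      rintro s hs ⟨h5, h6⟩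
      obtain ⟨g1, g2⟩ := JN_core hδ hρ (cstN_lt hδ i.1) (cstN_le hδ i.1) le_rfl le_rfl h5
      obtain ⟨g3, g4⟩ := JN_core hδ hρ (cstN_lt hδ i.2) (cstN_le hδ i.2) le_rfl le_rfl h6
      have e : s = i := Prod.ext (by omega) (by omega)
      rw [e] at hs
      exact hi hs
    · intro a b hab ha hb h
      exact h.trans (hB a b ha hb hab)
  intro x hx y hy
  obtain ⟨i, hi⟩ := exists_cel k (pt δ x)
  obtain ⟨j, hj⟩ := exists_cel k (pt δ y)
  have hiS : i ∈ (S : Set V)ᶜ := fun h => hx (self_subset_cthickening _ (cel_subset_pol h hi))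
  have hjS : j ∈ (S : Set V)ᶜ := fun h => hy (self_subset_cthickening _ (cel_subset_pol h hj))
  exact ((hA x hx i hi).trans (hC i j (hS i hiS j hjS))).trans (hA y hy j hj).symm'

/-! ### even boundary -/

open Classical in
/-- the domain with the odd sites of its boundary removed -/
noncomputable def evn (D : Finset V) : Finset V := D.filter (fun x => Even (par x) ∨ x ∉ bdry D)

lemma mem_evn {D : Finset V} {x : V} : x ∈ evn D ↔ x ∈ D ∧ (Even (par x) ∨ x ∉ bdry D) := by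
  classical
  unfold evn
  rw [Finset.mem_filter]

lemma evn_par (D : Finset V) : BdryPar (evn D) 0 := by
  intro v hv
  rw [sub_zero]
  by_contra hodd
  obtain ⟨h1, u, hu, hu'⟩ := mem_bdry.1 hv
  rw [mem_evn] at h1 hu'
  obtain ⟨h2, h3⟩ := h1
  have h4 : v ∉ bdry D := h3.resolve_left hodd
  have h5 : u ∈ D := by
    by_contra h5
    exact h4 (mem_bdry.2 ⟨h2, u, hu, h5⟩)
  refine hu' ⟨h5, Or.inl ?_⟩
  have h6 := adj_par hu
  rw [Int.not_even_iff_odd] at hodd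
  have h7 := h6.add_odd hodd
  rwa [sub_add_cancel] at h7

lemma evn_cnn {D : Finset V} (h : Cnn ((D : Set V)ᶜ)) : Cnn ((evn D : Set V)ᶜ) := by
  have sub : (D : Set V)ᶜ ⊆ (evn D : Set V)ᶜ := fun x hx hx' => hx (mem_evn.1 (Finset.mem_coe.1 hx')).1
  have key : ∀ x ∈ (evn D : Set V)ᶜ, ∃ y ∈ (D : Set V)ᶜ, Con (evn D : Set V)ᶜ x y := by
    intro x hx
    by_cases hxD : x ∈ D
    · have hb : x ∈ bdry D := by
        by_contra hb
        exact hx (Finset.mem_coe.2 (mem_evn.2 ⟨hxD, Or.inr hb⟩))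
      obtain ⟨-, u, hu, hu'⟩ := mem_bdry.1 hb
      exact ⟨u, hu', Jn.single (adj_symm hu) hx (sub hu')⟩
    · exact ⟨x, hxD, Jn.refl hx⟩
  intro x hx y hy
  obtain ⟨x', hx', h1⟩ := key x hx
  obtain ⟨y', hy', h2⟩ := key y hy
  exact (h1.trans ((h x' hx' y' hy').mono (fun _ _ h => h) sub)).trans h2.symm'

lemma mem_core_evn {D : Finset V} {x : V} (hx : x ∈ D) (h1 : ∀ u, Adj u x → u ∈ D)
    (h2 : ∀ u w, Adj u x → Adj w u → w ∈ D) : x ∈ core (evn D) := by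
  have h3 : ∀ v ∈ D, (∀ u, Adj u v → u ∈ D) → v ∈ evn D := by
    intro v hv h
    refine mem_evn.2 ⟨hv, Or.inr fun hb => ?_⟩
    obtain ⟨-, u, hu, hu'⟩ := mem_bdry.1 hb
    exact hu' (h u hu)
  unfold core
  rw [Finset.mem_sdiff]
  refine ⟨h3 x hx h1, fun hb => ?_⟩
  obtain ⟨-, u, hu, hu'⟩ := mem_bdry.1 hb
  exact hu' (h3 u (h1 u hu) fun w hw => h2 u w hu hw)

/-! ### the domains -/

lemma pt_finite {δ : ℝ} (hδ : 0 < δ) {B : Set Pl} (hB : Bornology.IsBounded B) :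
    {x : V | pt δ x ∈ B}.Finite := by
  obtain ⟨R, hR⟩ := hB.exists_norm_le
  obtain ⟨N, hN⟩ := exists_nat_ge (R / δ)
  have key : ∀ a : ℤ, |δ * (a : ℝ)| ≤ R → -(N : ℤ) ≤ a ∧ a ≤ (N : ℤ) := by
    intro a ha
    rw [abs_mul, abs_of_pos hδ, mul_comm] at ha
    have h1 : |(a : ℝ)| ≤ R / δ := by
      rw [le_div_iff₀ hδ]
      exact ha
    have h2 : |(a : ℝ)| ≤ (N : ℝ) := h1.trans hN
    have h3 : |a| ≤ (N : ℤ) := by exact_mod_cast h2
    exact abs_le.1 h3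
  refine (Finset.finite_toSet (Finset.Icc (-(N : ℤ)) N ×ˢ Finset.Icc (-(N : ℤ)) N)).subset ?_
  intro x hx
  have h1 := hR _ hx
  unfold pt at h1
  rw [Prod.norm_def, max_le_iff, Real.norm_eq_abs, Real.norm_eq_abs] at h1
  simp only [Finset.coe_product, Finset.coe_Icc, mem_prod, mem_Icc]
  exact ⟨key _ h1.1, key _ h1.2⟩

open Classical in
/-- the even domain of the sites at distance at most `ρ` from the polyomino -/
noncomputable def nbD (k : ℕ) (S : Finset (ℤ × ℤ)) (ρ δ : ℝ) : Finset V :=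
  if h : {x : V | pt δ x ∈ cthickening ρ (pol k S)}.Finite then evn h.toFinset else ∅

private lemma L2_frontier {k : ℕ} {S : Finset (ℤ × ℤ)} {p : Pl} (hp : p ∈ frontier (pol k S)) :
    ∃ j, j ∉ S ∧ p ∈ cel k j := by
  have hc := cells_closed k ((S : Set (ℤ × ℤ))ᶜ)
  have h1 : (pol k S)ᶜ ⊆ ⋃ i : ↥((S : Set (ℤ × ℤ))ᶜ), cel k i := by
    intro q hq
    obtain ⟨i, hi⟩ := exists_cel k q
    exact mem_iUnion.2 ⟨⟨i, fun h => hq (cel_subset_pol h hi)⟩, hi⟩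
  have h2 : p ∈ closure (pol k S)ᶜ := by
    rw [closure_compl]
    exact hp.2
  have h3 := closure_minimal h1 hc h2
  rw [mem_iUnion] at h3
  obtain ⟨⟨j, hj⟩, hpj⟩ := h3
  exact ⟨j, hj, hpj⟩

/-- a site of a square, close to a point of the square and away from its sides -/
private lemma L2_coord {k : ℕ} {ρ δ r t : ℝ} {j : ℤ} (hδ : 0 < δ) (hr : ρ + δ ≤ r)
    (hrk : 2 * r ≤ 1 / 2 ^ k) (h1 : gx k j ≤ t) (h2 : t ≤ gx k (j + 1)) (hρ : 0 ≤ ρ) :
    ∃ v : ℤ, |δ * v - t| ≤ r + δ ∧ ∀ s, JN k ρ s (δ * v) → s = j := by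
  have hm := gx_succ_sub k j
  obtain ⟨q, hq1, hq2, hq3⟩ : ∃ q, gx k j + r ≤ q ∧ q ≤ gx k (j + 1) - r ∧ |q - t| ≤ r := by
    rcases le_total t (gx k j + r) with h3 | h3
    · exact ⟨gx k j + r, le_rfl, by linarith, by rw [abs_le]; constructor <;> linarith⟩
    · rcases le_total t (gx k (j + 1) - r) with h4 | h4
      · exact ⟨t, h3, h4, by rw [sub_self, abs_zero]; linarith⟩
      · exact ⟨gx k (j + 1) - r, by linarith, le_rfl, by rw [abs_le]; constructor <;> linarith⟩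
  have g1 := Int.floor_le (q / δ)
  have g2 := Int.lt_floor_add_one (q / δ)
  rw [le_div_iff₀ hδ] at g1
  rw [div_lt_iff₀ hδ] at g2
  refine ⟨⌊q / δ⌋, ?_, ?_⟩
  · rw [abs_le] at hq3 ⊢
    constructor <;> linarith [hq3.1, hq3.2]
  · rintro s ⟨h3, h4⟩
    by_contra hne
    rcases lt_or_gt_of_ne hne with h8 | h8
    · have := gx_mono (k := k) (show s + 1 ≤ j by omega)
      linarith
    · have := gx_mono (k := k) (show j + 1 ≤ s by omega)
      linarith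

theorem nbD_spec {k : ℕ} {S : Finset (ℤ × ℤ)} (hP : IsPreconnected (pol k S)ᶜ) {τ δ : ℝ} (hτ : 0 < τ)
    (hτk : 8 * τ ≤ 1 / 2 ^ k) (hδ : 0 < δ) (hδτ : 2 * δ ≤ τ) : LG.SC (nbD k S (2 * τ) δ) ∧
      (∀ x, pt δ x ∈ cthickening τ (pol k S) → x ∈ core (nbD k S (2 * τ) δ)) ∧
      (∀ x ∈ nbD k S (2 * τ) δ, pt δ x ∈ cthickening (2 * τ) (pol k S)) ∧
      ∀ p ∈ frontier (pol k S), ∃ v, v ∉ nbD k S (2 * τ) δ ∧ dist (pt δ v) p ≤ 4 * τ := by
  have hfin : {x : V | pt δ x ∈ cthickening (2 * τ) (pol k S)}.Finite :=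
    pt_finite hδ (pol_compact k S).isBounded.cthickening
  have hD : nbD k S (2 * τ) δ = evn hfin.toFinset := by
    unfold nbD
    rw [dif_pos hfin]
  have hmem : ∀ x, x ∈ hfin.toFinset ↔ pt δ x ∈ cthickening (2 * τ) (pol k S) := by
    intro x
    rw [Set.Finite.mem_toFinset]
    rfl
  have hcoe : (hfin.toFinset : Set V)ᶜ = offN k S (2 * τ) δ := by
    ext x
    rw [Set.mem_compl_iff, Finset.mem_coe, hmem]
    rfl
  have hin : ∀ x ∈ nbD k S (2 * τ) δ, pt δ x ∈ cthickening (2 * τ) (pol k S) := by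
    intro x hx
    rw [hD, mem_evn, hmem] at hx
    exact hx.1
  have hcnn : Cnn ((hfin.toFinset : Set V)ᶜ) := by
    rw [hcoe]
    exact offN_cnn hδ (by positivity) (by linarith) (cells_cnn hP)
  have hstep : ∀ (a b : ℝ) (x u : V), 0 ≤ a → Adj u x → pt δ x ∈ cthickening a (pol k S) → a + δ ≤ b →
      pt δ u ∈ cthickening b (pol k S) := by
    intro a b x u ha hux hx hab
    have h1 := pt_dist (δ := δ) hux
    rw [abs_of_pos hδ] at h1
    have h2 : pt δ u ∈ cthickening δ (cthickening a (pol k S)) :=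
      mem_cthickening_of_dist_le _ _ _ _ hx h1
    exact cthickening_mono (by linarith) _ (cthickening_cthickening_subset hδ.le ha _ h2)
  refine ⟨⟨?_, ?_⟩, ?_, hin, ?_⟩
  · rw [hD]
    exact evn_par _
  · rw [hD]
    exact evn_cnn hcnn
  · intro x hx
    rw [hD]
    refine mem_core_evn ?_ ?_ ?_
    · rw [hmem]
      exact cthickening_mono (by linarith) _ hx
    · intro u hu
      rw [hmem]
      exact hstep τ (2 * τ) x u hτ.le hu hx (by linarith)
    · intro u w hu hw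
      rw [hmem]
      exact hstep (τ + δ) (2 * τ) u w (by linarith) hw (hstep τ (τ + δ) x u hτ.le hu hx le_rfl) (by linarith)
  · intro p hp
    obtain ⟨j, hj, hpj⟩ := L2_frontier hp
    obtain ⟨h1, h2, h3, h4⟩ := L2_fst hpj
    obtain ⟨a, ha, ha'⟩ := L2_coord (ρ := 2 * τ) (r := 3 * τ) hδ (by linarith) (by linarith) h1 h2 (by linarith)
    obtain ⟨b, hb, hb'⟩ := L2_coord (ρ := 2 * τ) (r := 3 * τ) hδ (by linarith) (by linarith) h3 h4 (by linarith)
    refine ⟨(a, b), fun hv => ?_, ?_⟩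
    · have h5 := hin _ hv
      rw [mem_cth (by linarith)] at h5
      obtain ⟨s, hs, h6, h7⟩ := h5
      have e : s = j := Prod.ext (ha' _ h6) (hb' _ h7)
      rw [e] at hs
      exact hj hs
    · unfold pt
      rw [Prod.dist_eq, max_le_iff, Real.dist_eq, Real.dist_eq]
      constructor <;> linarith

/-- (L2) simply connected even lattice domains between the neighbourhoods of radius `τ` and `2 τ` of a polyomino with
connected complement -/
theorem exists_outer {k : ℕ} {S : Finset (ℤ × ℤ)} (hP : IsPreconnected (pol k S)ᶜ) {τ : ℝ} (hτ : 0 < τ)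
    (hτk : 8 * τ ≤ 1 / 2 ^ k) : ∃ D : ℝ → Finset V, ∀ᶠ δ in 𝓝[>] (0 : ℝ), LG.SC (D δ) ∧
      (∀ x, pt δ x ∈ cthickening τ (pol k S) → x ∈ core (D δ)) ∧
      (∀ x ∈ D δ, pt δ x ∈ cthickening (2 * τ) (pol k S)) ∧
      ∀ p ∈ frontier (pol k S), ∃ v, v ∉ D δ ∧ dist (pt δ v) p ≤ 4 * τ := by
  refine ⟨fun δ => nbD k S (2 * τ) δ, ?_⟩
  have h1 : ∀ᶠ δ in 𝓝[>] (0 : ℝ), δ < τ / 2 :=
    mem_nhdsWithin_of_mem_nhds (Iio_mem_nhds (by positivity))
  filter_upwards [self_mem_nhdsWithin, h1] with δ hδ hδ'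
  exact nbD_spec hP hτ hτk hδ (by linarith)

end DV
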