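import Pool.Agent.Helper25.WD.Pf
import Pool.Agent.Helper94.BR.Geo
import Pool.Agent.Helper97.DV.Tl

/-!
# Project DV (MP_973bc8_pr), upper half: the points near the boundary

For every point `z` of the frontier of `Ω` and every radius `t` there is a point `p` at Euclidean distance `t` from
`z` which is a limit along the ultrafilter of outside or boundary sites of the domains; finite families of such
points fill the shells of `Sh`.
-/

open Set Metric RP4 Filter Topology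
open GF (Pl)

namespace DV.WD

/-- `p` is a limit along `U` of outside or boundary sites -/
def Lsite (D : ℝ → Finset V) (U : Filter ℝ) (p : Pl) : Prop :=
  ∀ ε > 0, ∀ᶠ δ in U, ∃ v ∈ OO (D δ) (bdry (D δ)), dist (pt δ v) p < ε

/-- the limit points are outside of `Ω` -/
theorem Lsite.notMem {Ω : Set Pl} {D : ℝ → Finset V} {U : Filter ℝ} [U.NeBot] (hU : U ≤ 𝓝[>] 0) {p : Pl}
    (h : Lsite D U p) (hΩ : IsOpen Ω)
    (hin : ∀ Q : Set Pl, IsCompact Q → Q ⊆ Ω → ∀ᶠ δ in 𝓝[>] (0 : ℝ), ∀ x, pt δ x ∈ Q → x ∈ D δ) : p ∉ Ω := by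
  intro hp
  obtain ⟨ε, hε, hεΩ⟩ := Metric.nhds_basis_closedBall.mem_iff.1 (hΩ.mem_nhds hp)
  have hpos : ∀ᶠ δ in 𝓝[>] (0 : ℝ), 0 < δ := self_mem_nhdsWithin
  have hsm : ∀ᶠ δ in 𝓝[>] (0 : ℝ), δ < ε / 2 := mem_nhdsWithin_of_mem_nhds (Iio_mem_nhds (by positivity))
  have e1 : ∀ᶠ δ in U, ∀ x, pt δ x ∈ closedBall p ε → x ∈ D δ := hU (hin _ (isCompact_closedBall p ε) hεΩ)
  have e2 : ∀ᶠ δ in U, 0 < δ := hU hpos
  have e3 : ∀ᶠ δ in U, δ < ε / 2 := hU hsm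
  obtain ⟨δ, h1, ⟨v, hv, hvp⟩, h2, h3⟩ := (e1.and ((h (ε / 2) (by positivity)).and (e2.and e3))).exists
  have hvD : v ∈ D δ := h1 v (by
    rw [mem_closedBall]
    linarith)
  rcases hv with hv | hv
  · exact hv hvD
  · obtain ⟨-, u, hu, hu'⟩ := mem_bdry.1 hv
    refine hu' (h1 u ?_)
    rw [mem_closedBall]
    have h4 := pt_dist (δ := δ) hu
    rw [abs_of_pos h2] at h4
    have h5 := dist_triangle (pt δ u) (pt δ v) p
    linarith

private lemma pt_kng {δ : ℝ} (hδ : 0 < δ) {u v : V} (h : Kng u v) : dist (pt δ u) (pt δ v) ≤ δ := by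
  obtain ⟨h1, h2⟩ := h
  have h3 : |(u.1 : ℝ) - v.1| ≤ 1 := by exact_mod_cast h1
  have h4 : |(u.2 : ℝ) - v.2| ≤ 1 := by exact_mod_cast h2
  unfold pt
  rw [Prod.dist_eq, max_le_iff, Real.dist_eq, Real.dist_eq, ← mul_sub, ← mul_sub, abs_mul, abs_mul,
    abs_of_pos hδ]
  exact ⟨mul_le_of_le_one_right hδ.le h3, mul_le_of_le_one_right hδ.le h4⟩

/-- there are outside sites far away -/
private lemma far_out (D : Finset V) {δ : ℝ} (hδ : 0 < δ) (z : Pl) (t : ℝ) :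
    ∃ y : V, y ∉ D ∧ t < eu (pt δ y) z := by
  obtain ⟨B, hB⟩ : ∃ B : ℕ, ∀ v ∈ D, v.1.natAbs < B :=
    ⟨D.sup (fun v => v.1.natAbs) + 1, fun v hv =>
      Nat.lt_succ_of_le (Finset.le_sup (f := fun v : V => v.1.natAbs) hv)⟩
  obtain ⟨N, hN⟩ := exists_nat_gt ((|t| + |z.1|) / δ)
  refine ⟨((max B N : ℕ), 0), fun hy => ?_, ?_⟩
  · have := hB _ hy
    simp only [Int.natAbs_natCast] at this
    have h2 : B ≤ max B N := le_max_left _ _
    omega
  · have h1 : dist (pt δ (((max B N : ℕ) : ℤ), 0)) z ≤ eu (pt δ (((max B N : ℕ) : ℤ), 0)) z := dist_le_eu _ _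
    refine lt_of_lt_of_le ?_ h1
    have h2 : |δ * ((max B N : ℕ) : ℝ) - z.1| ≤ dist (pt δ (((max B N : ℕ) : ℤ), 0)) z := by
      rw [Prod.dist_eq, Real.dist_eq]
      refine le_trans (le_of_eq ?_) (le_max_left _ _)
      unfold pt
      simp
    have h3 : (|t| + |z.1|) / δ < ((max B N : ℕ) : ℝ) :=
      hN.trans_le (by exact_mod_cast le_max_right B N)
    rw [div_lt_iff₀ hδ] at h3
    have h4 := le_abs_self (δ * ((max B N : ℕ) : ℝ) - z.1)
    have h5 := le_abs_self z.1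
    have h6 := le_abs_self t
    have h7 : ((max B N : ℕ) : ℝ) * δ = δ * ((max B N : ℕ) : ℝ) := mul_comm _ _
    linarith

/-- limit points at every distance from a limit of outside sites -/
theorem exists_lim {D : ℝ → Finset V} {U : Ultrafilter ℝ} (hU : (U : Filter ℝ) ≤ 𝓝[>] 0)
    (hko : ∀ᶠ δ in 𝓝[>] (0 : ℝ), ∀ x ∈ OO (D δ) (bdry (D δ)), ∀ y ∈ OO (D δ) (bdry (D δ)),
      KCon (OO (D δ) (bdry (D δ))) x y) {z : Pl}
    (hz : ∀ ε > 0, ∀ᶠ δ in 𝓝[>] (0 : ℝ), ∃ x, x ∉ D δ ∧ dist (pt δ x) z < ε) {t : ℝ} (ht : 0 < t) :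
    ∃ p, eu p z = t ∧ Lsite D U p := by
  classical
  have hpos : ∀ᶠ δ in 𝓝[>] (0 : ℝ), 0 < δ := self_mem_nhdsWithin
  -- sites close to the circle
  have key : ∀ᶠ δ in (U : Filter ℝ), ∃ v ∈ OO (D δ) (bdry (D δ)), t - 2 * δ ≤ eu (pt δ v) z ∧
      eu (pt δ v) z ≤ t := by
    filter_upwards [hU hko, hU (hz (t / 2) (by positivity)), hU hpos] with δ h1 h2 h3
    obtain ⟨x, hx, hxz⟩ := h2
    obtain ⟨y, hy, hyz⟩ := far_out (D δ) h3 z t
    have h4 : eu (pt δ x) z ≤ 2 * dist (pt δ x) z := eu_le_two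
    obtain ⟨a, b, -, hab, ha, haA, -, hbA⟩ := (h1 x (Or.inl hx) y (Or.inl hy)).exit
      (A := {w | eu (pt δ w) z ≤ t}) (show eu (pt δ x) z ≤ t by linarith) (not_le.2 hyz)
    refine ⟨a, ha, ?_, haA⟩
    have h5 := abs_le.1 (eu_abs (pt δ a) (pt δ b) z)
    have h6 : eu (pt δ a) (pt δ b) ≤ 2 * dist (pt δ a) (pt δ b) := eu_le_two
    have h7 := pt_kng h3 hab
    have h8 : t < eu (pt δ b) z := not_le.1 hbA
    linarith [h5.1]
  set v : ℝ → V := fun δ => if h : ∃ v ∈ OO (D δ) (bdry (D δ)), t - 2 * δ ≤ eu (pt δ v) z ∧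
      eu (pt δ v) z ≤ t then h.choose else 0 with hv
  have key' : ∀ᶠ δ in (U : Filter ℝ), v δ ∈ OO (D δ) (bdry (D δ)) ∧ t - 2 * δ ≤ eu (pt δ (v δ)) z ∧
      eu (pt δ (v δ)) z ≤ t := by
    filter_upwards [key] with δ h
    have h1 := h.choose_spec
    rw [hv]
    simp only [dif_pos h]
    exact h1
  have hmem : closedBall z t ∈ Ultrafilter.map (fun δ => pt δ (v δ)) U := by
    rw [Ultrafilter.mem_map]
    filter_upwards [key'] with δ h
    show pt δ (v δ) ∈ closedBall z t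
    rw [mem_closedBall]
    exact (dist_le_eu _ _).trans h.2.2
  obtain ⟨p, -, hp⟩ := (isCompact_closedBall z t).ultrafilter_le_nhds' _ hmem
  have hlim : Tendsto (fun δ => pt δ (v δ)) (U : Filter ℝ) (𝓝 p) := hp
  refine ⟨p, ?_, fun ε hε => ?_⟩
  · have h1 : Tendsto (fun δ => eu (pt δ (v δ)) z) (U : Filter ℝ) (𝓝 (eu p z)) :=
      ((eu_continuous z).tendsto p).comp hlim
    have h2 : Tendsto (fun δ : ℝ => t - 2 * δ) (U : Filter ℝ) (𝓝 t) := by
      have h3 : Tendsto (fun δ : ℝ => t - 2 * δ) (𝓝 0) (𝓝 (t - 2 * 0)) := by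
        exact (continuous_const.sub (continuous_const.mul continuous_id)).tendsto 0
      rw [mul_zero, sub_zero] at h3
      exact h3.mono_left (hU.trans nhdsWithin_le_nhds)
    have h3 : Tendsto (fun δ => eu (pt δ (v δ)) z) (U : Filter ℝ) (𝓝 t) := by
      refine tendsto_of_tendsto_of_tendsto_of_le_of_le' h2 tendsto_const_nhds ?_ ?_
      · exact key'.mono fun δ h => h.2.1
      · exact key'.mono fun δ h => h.2.2
    exact tendsto_nhds_unique h1 h3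
  · filter_upwards [key', (Metric.tendsto_nhds.1 hlim) ε hε] with δ h1 h2
    exact ⟨v δ, h1.1, h2⟩

/-- the index of the square of side `s` that contains the point -/
private noncomputable def ix (s : ℝ) (z : Pl) : ℤ × ℤ := (⌊z.1 / s⌋, ⌊z.2 / s⌋)

private lemma ix_dist {s : ℝ} (hs : 0 < s) {z w : Pl} (h : ix s z = ix s w) : dist z w ≤ s := by
  have h1 : ⌊z.1 / s⌋ = ⌊w.1 / s⌋ := congrArg Prod.fst h
  have h2 : ⌊z.2 / s⌋ = ⌊w.2 / s⌋ := congrArg Prod.snd h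
  have key : ∀ x y : ℝ, ⌊x / s⌋ = ⌊y / s⌋ → |x - y| ≤ s := by
    intro x y hxy
    have h3 := Int.abs_sub_lt_one_of_floor_eq_floor hxy
    have h4 : x / s - y / s = (x - y) / s := by ring
    rw [h4, abs_div, abs_of_pos hs, div_lt_one hs] at h3
    exact h3.le
  rw [Prod.dist_eq, max_le_iff, Real.dist_eq, Real.dist_eq]
  exact ⟨key _ _ h1, key _ _ h2⟩

private lemma ix_mem {s ρ : ℝ} (hs : 0 < s) {N : ℕ} (hN : ρ / s + 1 ≤ N) {z : Pl} (hz : ‖z‖ ≤ ρ) :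
    ix s z ∈ Finset.Icc (-(N : ℤ)) N ×ˢ Finset.Icc (-(N : ℤ)) N := by
  have key : ∀ x : ℝ, |x| ≤ ρ → -(N : ℤ) ≤ ⌊x / s⌋ ∧ ⌊x / s⌋ ≤ (N : ℤ) := by
    intro x hx
    have h1 := abs_le.1 hx
    have h2 : x / s ≤ ρ / s := div_le_div_of_nonneg_right h1.2 hs.le
    have h3 : -(ρ / s) ≤ x / s := by
      rw [← neg_div]
      exact div_le_div_of_nonneg_right h1.1 hs.le
    constructor
    · rw [Int.le_floor]
      push_cast
      linarith
    · have h4 := Int.floor_le (x / s)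
      have h5 : (⌊x / s⌋ : ℝ) ≤ (N : ℝ) := by linarith
      exact_mod_cast h5
  unfold ix
  rw [Finset.mem_product, Finset.mem_Icc, Finset.mem_Icc]
  exact ⟨key _ ((norm_fst_le z).trans hz), key _ ((norm_snd_le z).trans hz)⟩

/-- **(7) The points.** -/
theorem exists_points {Ω : Set Pl} (hb : Bornology.IsBounded Ω) {D : ℝ → Finset V}
    (hko : ∀ᶠ δ in 𝓝[>] (0 : ℝ), ∀ x ∈ OO (D δ) (bdry (D δ)), ∀ y ∈ OO (D δ) (bdry (D δ)),
      KCon (OO (D δ) (bdry (D δ))) x y)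
    (hout : ∀ z ∈ frontier Ω, ∀ ε > 0, ∀ᶠ δ in 𝓝[>] (0 : ℝ), ∃ x, x ∉ D δ ∧ dist (pt δ x) z < ε)
    {R : ℝ} (hR : 0 < R) (m : ℕ) : ∃ C : ℝ, 0 ≤ C ∧ ∀ U : Ultrafilter ℝ, (U : Filter ℝ) ≤ 𝓝[>] 0 →
      ∀ n : ℕ, 1 ≤ n → ∃ P : Finset Pl, (P.card : ℝ) ≤ C * (n : ℝ) ^ 3 ∧
        (∀ p ∈ P, Lsite D U p ∧ ∃ z ∈ frontier Ω, eu p z ≤ R) ∧
        ∀ τ, 3 * R * Real.exp (-(n : ℝ)) ≤ τ → ∀ j < m, ∀ z ∈ frontier Ω, Sh P τ z (R / 8 ^ (j + 1)) := by
  classical
  obtain ⟨ρ, hρ0, hρ⟩ : ∃ ρ : ℝ, 0 ≤ ρ ∧ ∀ z ∈ frontier Ω, ‖z‖ ≤ ρ := by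
    have h1 : Bornology.IsBounded (frontier Ω) := hb.closure.subset frontier_subset_closure
    obtain ⟨ρ, hρ⟩ := h1.exists_norm_le
    exact ⟨max ρ 0, le_max_right _ _, fun z hz => (hρ z hz).trans (le_max_left _ _)⟩
  obtain ⟨c, hc⟩ := exists_nat_ge (32 * 8 ^ m * ρ / R + 1)
  have hc1 : 1 ≤ c := by
    have h1 : 0 ≤ 32 * 8 ^ m * ρ / R := by positivity
    have h2 : (1 : ℝ) ≤ c := by linarith
    exact_mod_cast h2
  refine ⟨m * (3 * c) ^ 2, by positivity, fun U hU n hn => ?_⟩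
  have hn0 : (0 : ℝ) < n := by exact_mod_cast hn
  set a : ℕ → ℝ := fun j => R / 8 ^ (j + 1) / (8 * n) with ha
  have ha0 : ∀ j, 0 < a j := fun j => by
    rw [ha]
    positivity
  set N : ℕ := c * n with hN
  have hNb : ∀ j < m, ρ / (a j / 4) + 1 ≤ (N : ℝ) := by
    intro j hj
    have e1 : ρ / (a j / 4) = 32 * 8 ^ (j + 1) * ρ / R * n := by
      rw [ha]
      field_simp
      ring
    have h1 : (8 : ℝ) ^ (j + 1) ≤ 8 ^ m := pow_le_pow_right₀ (by norm_num) (by omega)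
    have h2 : 32 * 8 ^ (j + 1) * ρ / R ≤ 32 * 8 ^ m * ρ / R := by
      gcongr
    have h3 : (1 : ℝ) ≤ n := by exact_mod_cast hn
    rw [e1, hN]
    push_cast
    nlinarith
  set K : Finset (ℤ × ℤ) := Finset.Icc (-(N : ℤ)) N ×ˢ Finset.Icc (-(N : ℤ)) N with hK
  -- the points
  have hchoice : ∀ q : ℕ × ℕ × (ℤ × ℤ), ∃ p : Pl, (∃ z ∈ frontier Ω, ix (a q.1 / 4) z = q.2.2) →
      Lsite D U p ∧ ∃ z ∈ frontier Ω, ix (a q.1 / 4) z = q.2.2 ∧ eu p z = 8 * ((q.2.1 : ℝ) + 1) * a q.1 := by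
    intro q
    by_cases h : ∃ z ∈ frontier Ω, ix (a q.1 / 4) z = q.2.2
    · obtain ⟨z, hz, hzq⟩ := h
      obtain ⟨p, hp1, hp2⟩ := exists_lim hU hko (hout z hz) (t := 8 * ((q.2.1 : ℝ) + 1) * a q.1)
        (by have := ha0 q.1; positivity)
      exact ⟨p, fun _ => ⟨hp2, z, hz, hzq, hp1⟩⟩
    · exact ⟨0, fun h' => absurd h' h⟩
  choose f hf using hchoice
  set Q : Finset (ℕ × ℕ × (ℤ × ℤ)) := (Finset.range m ×ˢ (Finset.range n ×ˢ K)).filter
    (fun q => ∃ z ∈ frontier Ω, ix (a q.1 / 4) z = q.2.2) with hQ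
  refine ⟨Q.image f, ?_, ?_, ?_⟩
  · have h1 : (Q.image f).card ≤ m * (n * K.card) := by
      refine Finset.card_image_le.trans ((Finset.card_filter_le _ _).trans (le_of_eq ?_))
      rw [Finset.card_product, Finset.card_product, Finset.card_range, Finset.card_range]
    have h2 : K.card = (2 * N + 1) ^ 2 := by
      rw [hK, Finset.card_product, Int.card_Icc, pow_two]
      congr 1 <;> omega
    have h3 : 2 * N + 1 ≤ 3 * c * n := by
      have h4 : 1 ≤ c * n := Nat.one_le_iff_ne_zero.2 (Nat.mul_ne_zero (by omega) (by omega))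
      rw [hN]
      calc 2 * (c * n) + 1 ≤ 2 * (c * n) + c * n := by omega
        _ = 3 * c * n := by ring
    have h4 : (Q.image f).card ≤ m * (n * (3 * c * n) ^ 2) := by
      refine h1.trans ?_
      rw [h2]
      gcongr
    calc ((Q.image f).card : ℝ) ≤ ((m * (n * (3 * c * n) ^ 2) : ℕ) : ℝ) := by exact_mod_cast h4
      _ = m * (3 * c) ^ 2 * (n : ℝ) ^ 3 := by
        push_cast
        ring
  · intro p hp
    obtain ⟨q, hq, rfl⟩ := Finset.mem_image.1 hp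
    rw [hQ, Finset.mem_filter, Finset.mem_product, Finset.mem_product, Finset.mem_range, Finset.mem_range] at hq
    obtain ⟨h1, z, hz, -, h2⟩ := hf q hq.2
    refine ⟨h1, z, hz, ?_⟩
    rw [h2]
    have h3 : ((q.2.1 : ℝ) + 1) ≤ n := by exact_mod_cast hq.1.2.1
    have h4 : 8 * ((q.2.1 : ℝ) + 1) * a q.1 ≤ 8 * n * a q.1 := by
      have := ha0 q.1
      gcongr
    have h5 : 8 * n * a q.1 = R / 8 ^ (q.1 + 1) := by
      rw [ha]
      field_simp
    have h6 : R / 8 ^ (q.1 + 1) ≤ R := div_le_self hR.le (one_le_pow₀ (by norm_num))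
    linarith
  · intro τ hτ j hj z hz
    have hτ0 : 0 < τ := lt_of_lt_of_le (by positivity) hτ
    have hs : 0 < a j / 4 := by
      have := ha0 j
      positivity
    have hkK : ix (a j / 4) z ∈ K := ix_mem hs (hNb j hj) (hρ z hz)
    have hqQ : ∀ i : Fin n, ((j, (i : ℕ), ix (a j / 4) z) : ℕ × ℕ × (ℤ × ℤ)) ∈ Q := by
      intro i
      rw [hQ, Finset.mem_filter, Finset.mem_product, Finset.mem_product, Finset.mem_range, Finset.mem_range]
      exact ⟨⟨hj, i.2, hkK⟩, z, hz, rfl⟩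
    have h8 : 8 * a j * n = R / 8 ^ (j + 1) := by
      rw [ha]
      field_simp
    have hb0 : 0 < R / 8 ^ (j + 1) := by positivity
    refine ⟨a j, n, fun i => f (j, (i : ℕ), ix (a j / 4) z), ha0 j,
      fun i => Finset.mem_image_of_mem f (hqQ i), fun i => ?_, h8.le, by linarith, ?_⟩
    · obtain ⟨-, w, -, hw, h2⟩ := hf (j, (i : ℕ), ix (a j / 4) z) ⟨z, hz, rfl⟩
      simp only at hw h2
      have h3 := ix_dist hs hw
      have h4 : eu w z ≤ 2 * dist w z := eu_le_two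
      have h5 := eu_abs z w (f (j, (i : ℕ), ix (a j / 4) z))
      have h6 : eu z w ≤ a j := by
        rw [eu_comm]
        linarith [ha0 j]
      have e1 : eu w (f (j, (i : ℕ), ix (a j / 4) z)) = 8 * ((i : ℝ) + 1) * a j := by
        rw [eu_comm]
        exact h2
      rw [eu_comm (f (j, (i : ℕ), ix (a j / 4) z)) z, ← e1]
      exact h5.trans h6
    · have h1 : 3 * (R / 8 ^ (j + 1)) / τ ≤ Real.exp n := by
        rw [div_le_iff₀ hτ0]
        have h2 : R / 8 ^ (j + 1) ≤ R := div_le_self hR.le (one_le_pow₀ (by norm_num))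
        have h3 : Real.exp n * (3 * R * Real.exp (-(n : ℝ))) ≤ Real.exp n * τ :=
          mul_le_mul_of_nonneg_left hτ (Real.exp_pos _).le
        have h4 : Real.exp n * (3 * R * Real.exp (-(n : ℝ))) = 3 * R := by
          rw [mul_comm (3 * R), ← mul_assoc, ← Real.exp_add, add_neg_cancel, Real.exp_zero, one_mul]
        linarith
      rwa [Real.log_le_iff_le_exp (by positivity)]

end DV.WD
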